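import Mathlib
import Pool.Agent.Lib.MP_5bb92a_co.Defs

/-!
# MP_5bb92a_co: all small heights

The coins have an arbitrary small height `h`; a unit interval is divided into `N` slabs of width
`1 / N ≥ h` (later `N = ⌊1 / h⌋`) and the coin of a slab starts at the left end of the slab.
-/

set_option autoImplicit false

open MeasureTheory Set

namespace Pool.Agent.Lib.MP_5bb92a_co.Ins

/-- the piece of the slab `s`: `false` if the slab is in `[2n, 2n+1]`, `true` if it is in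
`[2n+1, 2n+2]` -/
def pcN (N : ℕ) (s : ℤ) : Bool := decide (s / (N : ℤ) % 2 = 1)

/-- the width of the slabs -/
noncomputable def wd (N : ℕ) : ℝ := 1 / (N : ℝ)

/-- the slab number `s` -/
def slabN (N : ℕ) (s : ℤ) : Set ℝ := Set.Icc (s * wd N) ((s + 1) * wd N)

/-- the conditions on the heights of the layers `0, 2 mod 4` -/
def GoodYN (N : ℕ) (y : ℤ → ℝ) : Prop := ∀ (s : ℤ) (x : ℝ), x ∈ slabN N s → ∀ j : Bool,
  y s + ph (x - cc j) ≤ cA (pcN N s) j ∧ -y s + ph (1 - x - cc j) ≤ cA (pcN N s) j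

/-- the conditions on the heights of the layers `1, 3 mod 4` -/
def GoodZN (N : ℕ) (Y : ℤ → ℝ) : Prop := ∀ (s : ℤ) (z : ℝ), z ∈ slabN N s → ∀ k : Bool,
  cA k (pcN N s) + ph (z - ca k) ≤ rho + Y s ∧ cA k (pcN N s) + ph (1 - z - ca k) ≤ rho - Y s

/-- the phase of the layer `l` in the slab `s` -/
noncomputable def offN (N : ℕ) (l s : ℤ) : ℝ :=
  if l % 4 = 0 then ca (pcN N s) else if l % 4 = 1 then cc (pcN N s)
    else if l % 4 = 2 then 1 - ca (pcN N s) else 1 - cc (pcN N s)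

/-- the coin number `k` in the slab `s` of the layer `l` -/
noncomputable def coinN (N : ℕ) (h : ℝ) (y Y : ℤ → ℝ) (l s k : ℤ) : Set E3 :=
  {p | (tr l p - (offN N l s + 2 * k)) ^ 2 + (p 1 - ctr y Y l s) ^ 2 ≤ 1 ∧
    s * wd N ≤ ax l p ∧ ax l p ≤ s * wd N + h}

/-- the open coin -/
noncomputable def ocN (N : ℕ) (h : ℝ) (y Y : ℤ → ℝ) (l s k : ℤ) : Set E3 :=
  {p | (tr l p - (offN N l s + 2 * k)) ^ 2 + (p 1 - ctr y Y l s) ^ 2 < 1 ∧
    s * wd N < ax l p ∧ ax l p < s * wd N + h}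

theorem wd_pos {N : ℕ} (hN : 0 < N) : 0 < wd N := by
  unfold wd
  have : (0 : ℝ) < (N : ℝ) := by exact_mod_cast hN
  positivity

theorem wd_le {N : ℕ} (hN : 10000 ≤ N) : wd N ≤ hh := by
  unfold wd hh
  have : (10000 : ℝ) ≤ (N : ℝ) := by exact_mod_cast hN
  exact one_div_le_one_div_of_le (by norm_num) this

theorem wd_mul {N : ℕ} (hN : 0 < N) : wd N * N = 1 := by
  unfold wd
  have : (N : ℝ) ≠ 0 := by
    have : (0 : ℝ) < (N : ℝ) := by exact_mod_cast hN
    exact this.ne'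
  field_simp

end Pool.Agent.Lib.MP_5bb92a_co.Ins
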