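import Mathlib
import Pool.Agent.Lib.MP_5bb92a_co.Defs

set_option autoImplicit false

open MeasureTheory Set Filter Topology

namespace Pool.Agent.Lib.MP_5bb92a_co.Ins

private lemma dens_dist {σ : Equiv.Perm (Fin 3)} {p q : E3} {K : ℝ} (hK : 0 ≤ K)
    (h : ∀ m, |p (σ m) - q (σ m)| ≤ K) : dist p q ≤ 2 * K := by
  rw [EuclideanSpace.dist_eq]
  apply Real.sqrt_le_iff.mpr
  refine ⟨by positivity, ?_⟩
  have h1 : ∀ m, |p m - q m| ≤ K := by
    intro m
    have := h (σ.symm m)
    simpa using this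
  have h2 : ∀ m, dist (p m) (q m) ^ 2 ≤ K ^ 2 := by
    intro m
    rw [Real.dist_eq]
    exact pow_le_pow_left₀ (abs_nonneg _) (h1 m) 2
  rw [Fin.sum_univ_three]
  have := h2 0
  have := h2 1
  have := h2 2
  nlinarith

private def cellD (a b c : ℝ) (σ : Equiv.Perm (Fin 3)) (x : ℤ × ℤ × ℤ) : Set E3 :=
  {p | (a * x.1 ≤ p (σ 0) ∧ p (σ 0) < a * (x.1 + 1)) ∧
    (b * x.2.1 ≤ p (σ 1) ∧ p (σ 1) < b * (x.2.1 + 1)) ∧
    (c * x.2.2 ≤ p (σ 2) ∧ p (σ 2) < c * (x.2.2 + 1))}

private lemma cell_vol {a b c : ℝ} (ha : 0 < a) (hb : 0 < b) (hc : 0 < c)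
    (σ : Equiv.Perm (Fin 3)) (x : ℤ × ℤ × ℤ) :
    volume (cellD a b c σ x) ≤ ENNReal.ofReal (a * b * c) := by
  set w : Fin 3 → ℝ := ![a, b, c] with hw
  set z : Fin 3 → ℤ := ![x.1, x.2.1, x.2.2] with hz
  have hset : cellD a b c σ x = (WithLp.ofLp : E3 → (Fin 3 → ℝ)) ⁻¹'
      (Set.univ.pi (fun m => Set.Ico (w (σ.symm m) * z (σ.symm m))
        (w (σ.symm m) * (z (σ.symm m) + 1)))) := by
    ext p
    constructor
    · rintro ⟨h0, h1, h2⟩ m _
      have key : ∀ m', w m' * z m' ≤ p (σ m') ∧ p (σ m') < w m' * (z m' + 1) := by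
        intro m'
        fin_cases m'
        · exact h0
        · exact h1
        · exact h2
      have := key (σ.symm m)
      rw [Equiv.apply_symm_apply] at this
      exact this
    · intro h
      have key : ∀ m', w m' * z m' ≤ p (σ m') ∧ p (σ m') < w m' * (z m' + 1) := by
        intro m'
        have := h (σ m') (Set.mem_univ _)
        simp only [Equiv.symm_apply_apply] at this
        exact this
      exact ⟨key 0, key 1, key 2⟩
  rw [hset]
  have hmp := PiLp.volume_preserving_ofLp (Fin 3)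
  rw [hmp.measure_preimage (MeasurableSet.univ_pi fun m => measurableSet_Ico).nullMeasurableSet]
  rw [Real.volume_pi_Ico]
  have h1 : ∀ m : Fin 3, w (σ.symm m) * (z (σ.symm m) + 1) - w (σ.symm m) * z (σ.symm m)
      = w (σ.symm m) := by
    intro m; ring
  simp only [h1]
  rw [Equiv.prod_comp σ.symm (fun m => ENNReal.ofReal (w m)), Fin.prod_univ_three]
  simp only [hw, Matrix.cons_val_zero, Matrix.cons_val_one, Matrix.cons_val_two,
    Matrix.head_cons, Matrix.tail_cons]
  rw [ENNReal.ofReal_mul (by positivity), ENNReal.ofReal_mul ha.le]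

private lemma cell_cover {a b c : ℝ} (ha : 0 < a) (hb : 0 < b) (hc : 0 < c)
    (σ : Equiv.Perm (Fin 3)) (p : E3) :
    p ∈ cellD a b c σ (⌊p (σ 0) / a⌋, ⌊p (σ 1) / b⌋, ⌊p (σ 2) / c⌋) := by
  have key : ∀ (t u : ℝ), 0 < u → u * (⌊t / u⌋ : ℤ) ≤ t ∧ t < u * ((⌊t / u⌋ : ℤ) + 1) := by
    intro t u hu
    have h1 := Int.floor_le (t / u)
    have h2 := Int.lt_floor_add_one (t / u)
    rw [le_div_iff₀ hu] at h1
    rw [div_lt_iff₀ hu] at h2
    constructor <;> linarith
  exact ⟨key _ _ ha, key _ _ hb, key _ _ hc⟩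

private lemma dens_step {N : ℕ} {a b c v C : ℝ} (ha : 0 < a) (hb : 0 < b) (hc : 0 < c)
    (hv : 0 ≤ v) (hC : 0 ≤ C) (σ : Fin N → Equiv.Perm (Fin 3))
    (O : Fin N → ℤ → ℤ → ℤ → Set E3) (hm : ∀ r i j k, MeasurableSet (O r i j k))
    (hd : ∀ r i j k r' i' j' k', (r, i, j, k) ≠ (r', i', j', k') →
      Disjoint (O r i j k) (O r' i' j' k'))
    (hvol : ∀ r i j k, volume (O r i j k) = ENNReal.ofReal v)
    (hnear : ∀ r i j k, ∀ p ∈ O r i j k, |p (σ r 0) - a * i| ≤ C ∧ |p (σ r 1) - b * j| ≤ C ∧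
      |p (σ r 2) - c * k| ≤ C)
    (U : Set E3) (hU : ∀ r i j k, O r i j k ⊆ U) (R : ℝ) :
    ENNReal.ofReal (N * v / (a * b * c)) * volume (Metric.ball (0 : E3) R) ≤
      volume (U ∩ Metric.ball (0 : E3) (R + 2 * (C + a + b + c))) := by
  classical
  set D : ℝ := 2 * (C + a + b + c) with hD
  set G : Fin N → Set (ℤ × ℤ × ℤ) := fun r =>
    {x | (cellD a b c (σ r) x ∩ Metric.ball (0 : E3) R).Nonempty} with hG
  set A : Fin N × (ℤ × ℤ × ℤ) → Set E3 := fun y =>
    if y.2 ∈ G y.1 then O y.1 y.2.1 y.2.2.1 y.2.2.2 else ∅ with hA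
  have hAm : ∀ y, MeasurableSet (A y) := by
    intro y
    simp only [hA]
    split_ifs
    · exact hm _ _ _ _
    · exact MeasurableSet.empty
  have hAd : Pairwise (Function.onFun Disjoint A) := by
    intro y y' hne
    simp only [Function.onFun, hA]
    split_ifs
    · apply hd
      intro heq
      apply hne
      simp only [Prod.mk.injEq] at heq
      exact Prod.ext heq.1 (Prod.ext heq.2.1 (Prod.ext heq.2.2.1 heq.2.2.2))
    · exact disjoint_bot_right
    · exact disjoint_bot_left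
    · exact disjoint_bot_left
  have hAsub : (⋃ y, A y) ⊆ U ∩ Metric.ball (0 : E3) (R + D) := by
    intro p hp
    obtain ⟨y, hy⟩ := Set.mem_iUnion.mp hp
    simp only [hA] at hy
    split_ifs at hy with hyG
    · refine ⟨hU _ _ _ _ hy, ?_⟩
      obtain ⟨q, hq, hqR⟩ := hyG
      obtain ⟨n0, n1, n2⟩ := hnear _ _ _ _ p hy
      obtain ⟨⟨q0, q0'⟩, ⟨q1, q1'⟩, ⟨q2, q2'⟩⟩ := hq
      rw [abs_le] at n0 n1 n2
      have hdist : dist p q ≤ 2 * (C + a + b + c) := by
        apply dens_dist (σ := σ y.1) (by positivity)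
        intro m
        fin_cases m
        · show |p ((σ y.1) 0) - q ((σ y.1) 0)| ≤ _
          rw [abs_le]
          constructor <;> nlinarith
        · show |p ((σ y.1) 1) - q ((σ y.1) 1)| ≤ _
          rw [abs_le]
          constructor <;> nlinarith
        · show |p ((σ y.1) 2) - q ((σ y.1) 2)| ≤ _
          rw [abs_le]
          constructor <;> nlinarith
      rw [Metric.mem_ball] at hqR ⊢
      calc dist p 0 ≤ dist p q + dist q 0 := dist_triangle _ _ _
        _ < D + R := by rw [hD]; linarith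
        _ = R + D := by ring
    · exact absurd hy (Set.notMem_empty _)
  set S : Fin N → ENNReal := fun r => ∑' x : ℤ × ℤ × ℤ, (if x ∈ G r then 1 else 0) with hS
  have h1 : ∑ r, S r * ENNReal.ofReal v ≤ volume (U ∩ Metric.ball (0 : E3) (R + D)) := by
    refine le_trans (le_of_eq ?_) (measure_mono hAsub)
    rw [measure_iUnion hAd hAm, ENNReal.tsum_prod (f := fun r x => volume (A (r, x))),
      tsum_fintype]
    refine Finset.sum_congr rfl fun r _ => ?_
    rw [hS]
    simp only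
    rw [← ENNReal.tsum_mul_right]
    refine tsum_congr fun x => ?_
    simp only [hA]
    split_ifs
    · rw [hvol, one_mul]
    · simp
  have h2 : ∀ r, volume (Metric.ball (0 : E3) R) ≤ S r * ENNReal.ofReal (a * b * c) := by
    intro r
    have hsub : Metric.ball (0 : E3) R ⊆
        ⋃ x : ℤ × ℤ × ℤ, (if x ∈ G r then cellD a b c (σ r) x else ∅) := by
      intro p hp
      refine Set.mem_iUnion.mpr ⟨(⌊p (σ r 0) / a⌋, ⌊p (σ r 1) / b⌋, ⌊p (σ r 2) / c⌋), ?_⟩
      have hc1 := cell_cover ha hb hc (σ r) p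
      rw [if_pos]
      · exact hc1
      · exact ⟨p, hc1, hp⟩
    refine (measure_mono hsub).trans ((measure_iUnion_le _).trans ?_)
    rw [hS]
    simp only
    rw [← ENNReal.tsum_mul_right]
    refine ENNReal.tsum_le_tsum fun x => ?_
    split_ifs
    · rw [one_mul]
      exact cell_vol ha hb hc _ _
    · simp
  have habc : 0 < a * b * c := by positivity
  have hne0 : ENNReal.ofReal (a * b * c) ≠ 0 := by
    rw [Ne, ENNReal.ofReal_eq_zero, not_le]; exact habc
  have hneT : ENNReal.ofReal (a * b * c) ≠ ⊤ := ENNReal.ofReal_ne_top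
  have h3 : ∀ r, volume (Metric.ball (0 : E3) R) / ENNReal.ofReal (a * b * c) ≤ S r := by
    intro r
    exact ENNReal.div_le_of_le_mul (h2 r)
  calc ENNReal.ofReal (N * v / (a * b * c)) * volume (Metric.ball (0 : E3) R)
      = ∑ r : Fin N, volume (Metric.ball (0 : E3) R) / ENNReal.ofReal (a * b * c)
          * ENNReal.ofReal v := by
        rw [Finset.sum_const, Finset.card_univ, Fintype.card_fin, nsmul_eq_mul,
          ENNReal.ofReal_div_of_pos habc, ENNReal.ofReal_mul (by positivity),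
          ENNReal.ofReal_natCast, ENNReal.div_eq_inv_mul, ENNReal.div_eq_inv_mul]
        ring
    _ ≤ ∑ r, S r * ENNReal.ofReal v := by
        refine Finset.sum_le_sum fun r _ => ?_
        gcongr
        exact h3 r
    _ ≤ _ := h1

/-- the lower density of the union of `N` families of disjoint sets of volume `v`, each family indexed by
`ℤ³` and near to a lattice with rectangular cells of volume `a * b * c` (`σ r` is the permutation of
the coordinates in the family `r`) -/
theorem density_liminf {N : ℕ} {a b c v C : ℝ} (ha : 0 < a) (hb : 0 < b) (hc : 0 < c)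
    (hv : 0 ≤ v) (hC : 0 ≤ C) (σ : Fin N → Equiv.Perm (Fin 3))
    (O : Fin N → ℤ → ℤ → ℤ → Set E3) (hm : ∀ r i j k, MeasurableSet (O r i j k))
    (hd : ∀ r i j k r' i' j' k', (r, i, j, k) ≠ (r', i', j', k') →
      Disjoint (O r i j k) (O r' i' j' k'))
    (hvol : ∀ r i j k, volume (O r i j k) = ENNReal.ofReal v)
    (hnear : ∀ r i j k, ∀ p ∈ O r i j k, |p (σ r 0) - a * i| ≤ C ∧ |p (σ r 1) - b * j| ≤ C ∧
      |p (σ r 2) - c * k| ≤ C)
    (U : Set E3) (hU : ∀ r i j k, O r i j k ⊆ U) :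
    ENNReal.ofReal (N * v / (a * b * c)) ≤ Filter.liminf (fun R : ℝ =>
      volume (U ∩ Metric.ball (0 : E3) R) / volume (Metric.ball (0 : E3) R)) Filter.atTop := by
  set D : ℝ := 2 * (C + a + b + c) with hD
  have hD0 : 0 ≤ D := by positivity
  set κ : ℝ := N * v / (a * b * c) with hκ
  have hκ0 : 0 ≤ κ := by positivity
  have hV1 : volume (Metric.ball (0 : E3) 1) ≠ 0 := (Metric.measure_ball_pos _ _ one_pos).ne'
  have hV1T : volume (Metric.ball (0 : E3) 1) ≠ ⊤ := measure_ball_lt_top.ne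
  have hball : ∀ R : ℝ, 0 ≤ R → volume (Metric.ball (0 : E3) R) =
      ENNReal.ofReal (R ^ 3) * volume (Metric.ball (0 : E3) 1) := by
    intro R hR
    have h := Measure.addHaar_ball (volume : Measure E3) 0 hR
    rw [h]
    simp
  have hlow : ∀ᶠ R : ℝ in atTop, ENNReal.ofReal (κ * ((R - D) / R) ^ 3) ≤
      volume (U ∩ Metric.ball (0 : E3) R) / volume (Metric.ball (0 : E3) R) := by
    filter_upwards [eventually_gt_atTop D, eventually_gt_atTop (0 : ℝ)] with R hR hR0
    have hstep := dens_step ha hb hc hv hC σ O hm hd hvol hnear U hU (R - D)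
    rw [← hD, sub_add_cancel] at hstep
    have hRb : volume (Metric.ball (0 : E3) R) ≠ 0 := (Metric.measure_ball_pos _ _ hR0).ne'
    have hRbT : volume (Metric.ball (0 : E3) R) ≠ ⊤ := measure_ball_lt_top.ne
    rw [ENNReal.le_div_iff_mul_le (Or.inl hRb) (Or.inl hRbT)]
    refine le_trans (le_of_eq ?_) hstep
    rw [hball R hR0.le, hball (R - D) (by linarith), ← mul_assoc, ← mul_assoc,
      ← ENNReal.ofReal_mul (by
        have : 0 ≤ (R - D) / R := div_nonneg (by linarith) hR0.le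
        positivity), ← ENNReal.ofReal_mul hκ0]
    congr 2
    field_simp
  have hlim : Tendsto (fun R : ℝ => ENNReal.ofReal (κ * ((R - D) / R) ^ 3)) atTop
      (𝓝 (ENNReal.ofReal κ)) := by
    apply ENNReal.tendsto_ofReal
    have h1 : Tendsto (fun R : ℝ => (R - D) / R) atTop (𝓝 1) := by
      have h2 : Tendsto (fun R : ℝ => 1 - D / R) atTop (𝓝 (1 - 0)) :=
        tendsto_const_nhds.sub (tendsto_const_nhds.div_atTop tendsto_id)
      rw [sub_zero] at h2
      refine h2.congr' ?_
      filter_upwards [eventually_gt_atTop (0 : ℝ)] with R hR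
      field_simp
    have h3 := (h1.pow 3).const_mul κ
    simpa using h3
  calc ENNReal.ofReal κ = liminf (fun R : ℝ => ENNReal.ofReal (κ * ((R - D) / R) ^ 3)) atTop :=
        hlim.liminf_eq.symm
    _ ≤ _ := liminf_le_liminf hlow

end Pool.Agent.Lib.MP_5bb92a_co.Ins
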