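import Mathlib
import Pool.Agent.Lib.MP_5bb92a_co.Phi
import Pool.Agent.Lib.MP_5bb92a_co.Ins.Defs

set_option autoImplicit false

open MeasureTheory Set

namespace Pool.Agent.Lib.MP_5bb92a_co.Ins

/-- consecutive layers on the line over `(x, z)`: here `i` is the slab of `x`, `j` the slab
of `z` -/
theorem step_even {N : ℕ} {y Y : ℤ → ℝ} (hy : GoodYN N y) (hY : GoodZN N Y) {i j : ℤ} {x z : ℝ}
    (hx : x ∈ slabN N i) (hz : z ∈ slabN N j) {l : ℤ} (hl : l % 2 = 0) :
    ctr y Y l i + ph (z - offN N l i) ≤ ctr y Y (l + 1) j - ph (x - offN N (l + 1) j) := by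
  obtain ⟨h1, h2⟩ := hy i x hx (pcN N j)
  obtain ⟨h3, h4⟩ := hY j z hz (pcN N i)
  have hr : l % 4 = 0 ∨ l % 4 = 2 := by omega
  rcases hr with hr | hr
  · have e1 : (l + 1) % 4 = 1 := by omega
    have e2 : (l + 1) / 4 = l / 4 := by omega
    unfold ctr offN
    simp only [hr, e1, e2, if_true, if_false, one_ne_zero]
    linarith
  · have e1 : (l + 1) % 4 = 3 := by omega
    have e2 : (l + 1) / 4 = l / 4 := by omega
    have n1 : ¬ ((2 : ℤ) = 0) := by norm_num
    have n2 : ¬ ((2 : ℤ) = 1) := by norm_num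
    have n3 : ¬ ((3 : ℤ) = 0) := by norm_num
    have n4 : ¬ ((3 : ℤ) = 1) := by norm_num
    have n5 : ¬ ((3 : ℤ) = 2) := by norm_num
    have f1 : ph (z - (1 - ca (pcN N i))) = ph (1 - z - ca (pcN N i)) := by
      rw [← ph_neg]; congr 1; ring
    have f2 : ph (x - (1 - cc (pcN N j))) = ph (1 - x - cc (pcN N j)) := by
      rw [← ph_neg]; congr 1; ring
    unfold ctr offN
    simp only [hr, e1, e2, n1, n2, n3, n4, n5, if_true, if_false, f1, f2]
    linarith

theorem step_odd {N : ℕ} {y Y : ℤ → ℝ} (hy : GoodYN N y) (hY : GoodZN N Y) {i j : ℤ} {x z : ℝ}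
    (hx : x ∈ slabN N i) (hz : z ∈ slabN N j) {l : ℤ} (hl : l % 2 = 1) :
    ctr y Y l j + ph (x - offN N l j) ≤ ctr y Y (l + 1) i - ph (z - offN N (l + 1) i) := by
  obtain ⟨h1, h2⟩ := hy i x hx (pcN N j)
  obtain ⟨h3, h4⟩ := hY j z hz (pcN N i)
  have n1 : ¬ ((2 : ℤ) = 0) := by norm_num
  have n2 : ¬ ((2 : ℤ) = 1) := by norm_num
  have n3 : ¬ ((3 : ℤ) = 0) := by norm_num
  have n4 : ¬ ((3 : ℤ) = 1) := by norm_num
  have n5 : ¬ ((3 : ℤ) = 2) := by norm_num
  have f1 : ph (z - (1 - ca (pcN N i))) = ph (1 - z - ca (pcN N i)) := by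
    rw [← ph_neg]; congr 1; ring
  have f2 : ph (x - (1 - cc (pcN N j))) = ph (1 - x - cc (pcN N j)) := by
    rw [← ph_neg]; congr 1; ring
  have hr : l % 4 = 1 ∨ l % 4 = 3 := by omega
  rcases hr with hr | hr
  · have e1 : (l + 1) % 4 = 2 := by omega
    have e2 : (l + 1) / 4 = l / 4 := by omega
    unfold ctr offN
    simp only [hr, e1, e2, n1, n2, n3, n4, n5, if_true, if_false, one_ne_zero, f1, f2]
    linarith
  · have e1 : (l + 1) % 4 = 0 := by omega
    have e2 : (l + 1) / 4 = l / 4 + 1 := by omega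
    unfold ctr offN
    simp only [hr, e1, e2, n1, n2, n3, n4, n5, if_true, if_false, one_ne_zero, f1, f2]
    push_cast
    linarith

theorem oc_floor {N : ℕ} (hN : 0 < N) {h : ℝ} (hh' : h ≤ wd N) {y Y : ℤ → ℝ} {l s k : ℤ}
    {p : E3} (hp : p ∈ ocN N h y Y l s k) : ⌊ax l p / wd N⌋ = s := by
  obtain ⟨_, h2, h3⟩ := hp
  have hpos := wd_pos hN
  rw [Int.floor_eq_iff]
  constructor
  · rw [le_div_iff₀ hpos]; exact h2.le
  · rw [div_lt_iff₀ hpos]
    have : (s : ℝ) * wd N + h ≤ (s + 1) * wd N := by linarith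
    linarith

private theorem floor_slab {N : ℕ} (hN : 0 < N) (t : ℝ) : t ∈ slabN N ⌊t / wd N⌋ := by
  have hpos := wd_pos hN
  constructor
  · rw [← le_div_iff₀ hpos]; exact Int.floor_le _
  · rw [← div_le_iff₀ hpos]; exact (Int.lt_floor_add_one _).le

private theorem oc_lt {N : ℕ} {h : ℝ} {y Y : ℤ → ℝ} {l s k : ℤ} {p : E3}
    (hp : p ∈ ocN N h y Y l s k) : |p 1 - ctr y Y l s| < ph (tr l p - offN N l s) := by
  obtain ⟨h1, _, _⟩ := hp
  apply abs_le_ph k
  have : tr l p - offN N l s - 2 * (k : ℝ) = tr l p - (offN N l s + 2 * k) := by ring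
  rw [this]
  exact h1

private theorem layer_step {N : ℕ} (hN : 0 < N) {y Y : ℤ → ℝ} (hy : GoodYN N y)
    (hY : GoodZN N Y) (p : E3) (l : ℤ) :
    ctr y Y l ⌊ax l p / wd N⌋ + ph (tr l p - offN N l ⌊ax l p / wd N⌋) ≤
      ctr y Y (l + 1) ⌊ax (l + 1) p / wd N⌋ -
        ph (tr (l + 1) p - offN N (l + 1) ⌊ax (l + 1) p / wd N⌋) := by
  rcases Int.emod_two_eq_zero_or_one l with hl | hl
  · have e1 : ¬ ((l + 1) % 2 = 0) := by omega
    have a1 : ax l p = p 0 := by simp [ax, hl]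
    have a2 : ax (l + 1) p = p 2 := by simp only [ax, e1, if_false]
    have t1 : tr l p = p 2 := by simp [tr, hl]
    have t2 : tr (l + 1) p = p 0 := by simp only [tr, e1, if_false]
    rw [a1, a2, t1, t2]
    exact step_even hy hY (floor_slab hN _) (floor_slab hN _) hl
  · have e0 : ¬ (l % 2 = 0) := by omega
    have e1 : (l + 1) % 2 = 0 := by omega
    have a1 : ax l p = p 2 := by simp only [ax, e0, if_false]
    have a2 : ax (l + 1) p = p 0 := by simp only [ax, e1, if_true]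
    have t1 : tr l p = p 0 := by simp only [tr, e0, if_false]
    have t2 : tr (l + 1) p = p 2 := by simp only [tr, e1, if_true]
    rw [a1, a2, t1, t2]
    exact step_odd hy hY (floor_slab hN _) (floor_slab hN _) hl

private theorem layer_lt {N : ℕ} (hN : 0 < N) {y Y : ℤ → ℝ} (hy : GoodYN N y)
    (hY : GoodZN N Y) (p : E3) (l : ℤ) (n : ℕ) :
    ctr y Y l ⌊ax l p / wd N⌋ + ph (tr l p - offN N l ⌊ax l p / wd N⌋) ≤
      ctr y Y (l + 1 + n) ⌊ax (l + 1 + n) p / wd N⌋ -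
        ph (tr (l + 1 + n) p - offN N (l + 1 + n) ⌊ax (l + 1 + n) p / wd N⌋) := by
  induction n with
  | zero =>
    have : l + 1 + ((0 : ℕ) : ℤ) = l + 1 := by simp
    rw [this]
    exact layer_step hN hy hY p l
  | succ n ih =>
    have h1 := layer_step hN hy hY p (l + 1 + n)
    have h2 := ph_nonneg (tr (l + 1 + n) p - offN N (l + 1 + n) ⌊ax (l + 1 + n) p / wd N⌋)
    have : l + 1 + ((n + 1 : ℕ) : ℤ) = l + 1 + n + 1 := by push_cast; ring
    rw [this]
    linarith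

private theorem no_common {N : ℕ} (hN : 0 < N) {h : ℝ} (hh' : h ≤ wd N) {y Y : ℤ → ℝ}
    (hy : GoodYN N y) (hY : GoodZN N Y) {l s k l' s' k' : ℤ}
    (hll : l < l') {p : E3} (hp : p ∈ ocN N h y Y l s k) (hp' : p ∈ ocN N h y Y l' s' k') :
    False := by
  obtain ⟨n, hn⟩ := Int.le.dest (show l + 1 ≤ l' by omega)
  have hk := layer_lt hN hy hY p l n
  rw [hn] at hk
  have h1 := oc_lt hp
  have h2 := oc_lt hp'
  rw [oc_floor hN hh' hp, oc_floor hN hh' hp'] at hk
  have h3 := (abs_lt.1 h1).2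
  have h4 := (abs_lt.1 h2).1
  linarith

/-- the open coins are disjoint -/
theorem oc_disjoint {N : ℕ} (hN : 0 < N) {h : ℝ} (hh' : h ≤ wd N) {y Y : ℤ → ℝ}
    (hy : GoodYN N y) (hY : GoodZN N Y) {l s k l' s' k' : ℤ}
    (hne : (l, s, k) ≠ (l', s', k')) :
    Disjoint (ocN N h y Y l s k) (ocN N h y Y l' s' k') := by
  rw [Set.disjoint_left]
  intro p hp hp'
  rcases lt_trichotomy l l' with hll | hll | hll
  · exact no_common hN hh' hy hY hll hp hp'
  · subst hll
    have hs : s = s' := by rw [← oc_floor hN hh' hp, ← oc_floor hN hh' hp']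
    subst hs
    apply hne
    have h1 : |tr l p - (offN N l s + 2 * k)| < 1 := by
      rw [← sq_lt_one_iff_abs_lt_one]
      have := hp.1
      nlinarith [sq_nonneg (p 1 - ctr y Y l s)]
    have h2 : |tr l p - (offN N l s + 2 * k')| < 1 := by
      rw [← sq_lt_one_iff_abs_lt_one]
      have := hp'.1
      nlinarith [sq_nonneg (p 1 - ctr y Y l s)]
    rw [abs_lt] at h1 h2
    have h3 : (k : ℝ) < k' + 1 := by linarith [h1.1, h1.2, h2.1, h2.2]
    have h4 : (k' : ℝ) < k + 1 := by linarith [h1.1, h1.2, h2.1, h2.2]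
    have h5 : k < k' + 1 := by exact_mod_cast h3
    have h6 : k' < k + 1 := by exact_mod_cast h4
    have : k = k' := by omega
    rw [this]
  · exact no_common hN hh' hy hY hll hp' hp

end Pool.Agent.Lib.MP_5bb92a_co.Ins
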