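import Mathlib
import Pool.Agent.Lib.MP_5bb92a_co.CertX
import Pool.Agent.Lib.MP_5bb92a_co.CertZ
import Pool.Agent.Lib.MP_5bb92a_co.Ins.Defs

set_option autoImplicit false

open MeasureTheory Set

namespace Pool.Agent.Lib.MP_5bb92a_co.Ins

/-- a slab is contained in a piece -/
theorem slab_piece {N : ℕ} (hN : 0 < N) (s : ℤ) :
    ∃ n : ℤ, slabN N s ⊆ Set.Icc (pl (pcN N s) n) (pl (pcN N s) n + 1) := by
  have hNz : (0 : ℤ) < (N : ℤ) := by exact_mod_cast hN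
  have h1 : (N : ℤ) * (s / N) + s % N = s := Int.mul_ediv_add_emod s N
  have h2 : 0 ≤ s % (N : ℤ) := Int.emod_nonneg s hNz.ne'
  have h3 : s % (N : ℤ) < N := Int.emod_lt_of_pos s hNz
  refine ⟨(s / (N : ℤ)) / 2, ?_⟩
  have hpl : pl (pcN N s) ((s / (N : ℤ)) / 2) = ((s / (N : ℤ) : ℤ) : ℝ) := by
    unfold pl pcN
    have h4 : 2 * ((s / (N : ℤ)) / 2) + (s / (N : ℤ)) % 2 = s / (N : ℤ) :=
      Int.mul_ediv_add_emod (s / (N : ℤ)) 2
    by_cases h : s / (N : ℤ) % 2 = 1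
    · simp only [h, decide_true, if_true]
      rw [h] at h4
      have : (2 : ℝ) * (((s / (N : ℤ)) / 2 : ℤ) : ℝ) + 1 = ((s / (N : ℤ) : ℤ) : ℝ) := by
        exact_mod_cast h4
      exact this
    · have h0 : s / (N : ℤ) % 2 = 0 := by omega
      rw [h0] at h4
      simp only [h0]
      have : (2 : ℝ) * (((s / (N : ℤ)) / 2 : ℤ) : ℝ) + 0 = ((s / (N : ℤ) : ℤ) : ℝ) := by
        exact_mod_cast h4
      simpa using this
  rw [hpl]
  intro x hx
  unfold slabN at hx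
  have h5 : (s : ℝ) = (N : ℝ) * ((s / (N : ℤ) : ℤ) : ℝ) + ((s % (N : ℤ) : ℤ) : ℝ) := by
    exact_mod_cast h1.symm
  have h6 : (0 : ℝ) ≤ ((s % (N : ℤ) : ℤ) : ℝ) := by exact_mod_cast h2
  have h7 : ((s % (N : ℤ) : ℤ) : ℝ) + 1 ≤ (N : ℝ) := by
    have : s % (N : ℤ) + 1 ≤ (N : ℤ) := by omega
    exact_mod_cast this
  have hw := wd_pos hN
  have hwm := wd_mul hN
  set q : ℝ := ((s / (N : ℤ) : ℤ) : ℝ) with hq
  set r : ℝ := ((s % (N : ℤ) : ℤ) : ℝ) with hr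
  obtain ⟨ha, hb⟩ := hx
  rw [h5] at ha hb
  have e1 : ((N : ℝ) * q + r) * wd N = q + r * wd N := by
    have : ((N : ℝ) * q + r) * wd N = (wd N * N) * q + r * wd N := by ring
    rw [this, hwm, one_mul]
  have e2 : ((N : ℝ) * q + r + 1) * wd N = q + (r + 1) * wd N := by
    have : ((N : ℝ) * q + r + 1) * wd N = (wd N * N) * q + (r + 1) * wd N := by ring
    rw [this, hwm, one_mul]
  rw [e1] at ha
  rw [e2] at hb
  have e3 : 0 ≤ r * wd N := by positivity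
  have e4 : (r + 1) * wd N ≤ 1 := by
    calc (r + 1) * wd N ≤ (N : ℝ) * wd N := mul_le_mul_of_nonneg_right h7 hw.le
      _ = 1 := by rw [mul_comm]; exact hwm
  constructor
  · linarith
  · linarith

private theorem slab_diff {N : ℕ} (hN : 10000 ≤ N) {s : ℤ} {x x' : ℝ} (hx : x ∈ slabN N s)
    (hx' : x' ∈ slabN N s) : |x - x'| ≤ hh := by
  unfold slabN at hx hx'
  have := wd_le hN
  rw [abs_le]
  obtain ⟨a, b⟩ := hx
  obtain ⟨a', b'⟩ := hx'
  constructor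
  · linarith
  · linarith

theorem left_mem {N : ℕ} (hN : 0 < N) (s : ℤ) : (s : ℝ) * wd N ∈ slabN N s := by
  unfold slabN
  have := wd_pos hN
  constructor
  · exact le_refl _
  · linarith

theorem exists_goodYN {N : ℕ} (hN : 10000 ≤ N) : ∃ y : ℤ → ℝ, GoodYN N y := by
  have hN0 : 0 < N := by omega
  have key : ∀ s : ℤ, ∃ y : ℝ, ∀ x : ℝ, x ∈ slabN N s → ∀ j : Bool,
      y + ph (x - cc j) ≤ cA (pcN N s) j ∧ -y + ph (1 - x - cc j) ≤ cA (pcN N s) j := by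
    intro s
    obtain ⟨n, hn⟩ := slab_piece hN0 s
    obtain ⟨y, hy1, hy2⟩ := exists_between_of_forall_le
      (s := {a : ℝ | ∃ x ∈ slabN N s, ∃ j : Bool, a = ph (1 - x - cc j) - cA (pcN N s) j})
      (t := {a : ℝ | ∃ x ∈ slabN N s, ∃ j : Bool, a = cA (pcN N s) j - ph (x - cc j)})
      ⟨_, (s : ℝ) * wd N, left_mem hN0 s, true, rfl⟩
      ⟨_, (s : ℝ) * wd N, left_mem hN0 s, true, rfl⟩
      (by
        rintro a ⟨x', hx', j', rfl⟩ b ⟨x, hx, j, rfl⟩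
        have h := certX (pcN N s) j j' n x x' (hn hx) (hn hx') (slab_diff hN hx hx')
        linarith)
    refine ⟨y, fun x hx j => ⟨?_, ?_⟩⟩
    · have := hy2 ⟨x, hx, j, rfl⟩
      linarith
    · have := hy1 ⟨x, hx, j, rfl⟩
      linarith
  choose y hy using key
  exact ⟨y, fun s x hx j => hy s x hx j⟩

theorem exists_goodZN {N : ℕ} (hN : 10000 ≤ N) : ∃ Y : ℤ → ℝ, GoodZN N Y := by
  have hN0 : 0 < N := by omega
  have key : ∀ s : ℤ, ∃ Y : ℝ, ∀ z : ℝ, z ∈ slabN N s → ∀ k : Bool,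
      cA k (pcN N s) + ph (z - ca k) ≤ rho + Y ∧ cA k (pcN N s) + ph (1 - z - ca k) ≤ rho - Y := by
    intro s
    obtain ⟨n, hn⟩ := slab_piece hN0 s
    obtain ⟨y, hy1, hy2⟩ := exists_between_of_forall_le
      (s := {a : ℝ | ∃ z ∈ slabN N s, ∃ k : Bool, a = cA k (pcN N s) + ph (z - ca k) - rho})
      (t := {a : ℝ | ∃ z ∈ slabN N s, ∃ k : Bool, a = rho - cA k (pcN N s) - ph (1 - z - ca k)})
      ⟨_, (s : ℝ) * wd N, left_mem hN0 s, true, rfl⟩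
      ⟨_, (s : ℝ) * wd N, left_mem hN0 s, true, rfl⟩
      (by
        rintro a ⟨x, hx, k, rfl⟩ b ⟨x', hx', k', rfl⟩
        have h := certZ (pcN N s) k k' n x x' (hn hx) (hn hx') (slab_diff hN hx hx')
        linarith)
    refine ⟨y, fun x hx j => ⟨?_, ?_⟩⟩
    · have := hy1 ⟨x, hx, j, rfl⟩
      linarith
    · have := hy2 ⟨x, hx, j, rfl⟩
      linarith
  choose y hy using key
  exact ⟨y, fun s x hx j => hy s x hx j⟩

private theorem cA_bounds (k j : Bool) : 7 / 10 ≤ cA k j ∧ cA k j ≤ 1 := by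
  cases k <;> cases j <;> norm_num [cA]

theorem GoodYN.abs_le {N : ℕ} (hN : 0 < N) {y : ℤ → ℝ} (h : GoodYN N y) (s : ℤ) :
    |y s| ≤ 1 := by
  obtain ⟨h1, h2⟩ := h s _ (left_mem hN s) true
  have h3 := ph_nonneg ((s : ℝ) * wd N - cc true)
  have h4 := ph_nonneg (1 - (s : ℝ) * wd N - cc true)
  have h5 := cA_bounds (pcN N s) true
  rw [_root_.abs_le]
  constructor
  · linarith [h5.2]
  · linarith [h5.2]

theorem GoodZN.abs_le {N : ℕ} (hN : 0 < N) {Y : ℤ → ℝ} (h : GoodZN N Y) (s : ℤ) :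
    |Y s| ≤ 2 := by
  obtain ⟨h1, h2⟩ := h s _ (left_mem hN s) true
  have h3 := ph_nonneg ((s : ℝ) * wd N - ca true)
  have h4 := ph_nonneg (1 - (s : ℝ) * wd N - ca true)
  have h5 := cA_bounds true (pcN N s)
  have h6 : rho ≤ 2 := by unfold rho; norm_num
  rw [_root_.abs_le]
  constructor
  · linarith [h5.1]
  · linarith [h5.1]

end Pool.Agent.Lib.MP_5bb92a_co.Ins
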