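import Mathlib
import Pool.Agent.Lib.MP_5bb92a_co.Ins.Defs

set_option autoImplicit false

open MeasureTheory Set

namespace Pool.Agent.Lib.MP_5bb92a_co.Ins

/-- the coins are congruent to the standard cylinder -/
theorem coin_isometric (N : ℕ) (h : ℝ) (y Y : ℤ → ℝ) (l s k : ℤ) : ∃ f : E3 ≃ᵢ E3,
    coinN N h y Y l s k = f '' {p : E3 | p 0 ^ 2 + p 1 ^ 2 ≤ 1 ∧ 0 ≤ p 2 ∧ p 2 ≤ h} := by
  by_cases hl : l % 2 = 0
  · let c : E3 := WithLp.toLp 2 ![(s : ℝ) * wd N, ctr y Y l s, offN N l s + 2 * k]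
    let g : E3 ≃ₗᵢ[ℝ] E3 :=
      LinearIsometryEquiv.piLpCongrLeft 2 ℝ ℝ (Equiv.swap (0 : Fin 3) 2)
    let f : E3 ≃ᵢ E3 := g.toIsometryEquiv.trans (IsometryEquiv.addRight c)
    have g0 : ∀ q : E3, g q 0 = q 2 := by
      intro q
      simp [g, LinearIsometryEquiv.piLpCongrLeft_apply, Equiv.piCongrLeft'_apply]
    have g1 : ∀ q : E3, g q 1 = q 1 := by
      intro q
      simp [g, LinearIsometryEquiv.piLpCongrLeft_apply, Equiv.piCongrLeft'_apply,
        Equiv.swap_apply_of_ne_of_ne]
    have g2 : ∀ q : E3, g q 2 = q 0 := by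
      intro q
      simp [g, LinearIsometryEquiv.piLpCongrLeft_apply, Equiv.piCongrLeft'_apply]
    have hf : ∀ q : E3, f q = g q + c := fun q => rfl
    have f0 : ∀ q : E3, f q 0 = q 2 + s * wd N := by
      intro q
      rw [hf, PiLp.add_apply, g0]
      simp [c]
    have f1 : ∀ q : E3, f q 1 = q 1 + ctr y Y l s := by
      intro q
      rw [hf, PiLp.add_apply, g1]
      simp [c]
    have f2 : ∀ q : E3, f q 2 = q 0 + (offN N l s + 2 * k) := by
      intro q
      rw [hf, PiLp.add_apply, g2]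
      simp [c]
    refine ⟨f, ?_⟩
    ext p
    obtain ⟨q, rfl⟩ := f.surjective p
    rw [f.injective.mem_set_image]
    simp only [coinN, tr, ax, hl, if_true, Set.mem_ofPred_eq]
    rw [f0, f1, f2]
    constructor
    · rintro ⟨h1, h2, h3⟩
      refine ⟨?_, ?_, ?_⟩
      · have e1 : q 0 + (offN N l s + 2 * k) - (offN N l s + 2 * k) = q 0 := by ring
        have e2 : q 1 + ctr y Y l s - ctr y Y l s = q 1 := by ring
        rw [e1, e2] at h1
        exact h1
      · linarith
      · linarith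
    · rintro ⟨h1, h2, h3⟩
      refine ⟨?_, ?_, ?_⟩
      · have e1 : q 0 + (offN N l s + 2 * k) - (offN N l s + 2 * k) = q 0 := by ring
        have e2 : q 1 + ctr y Y l s - ctr y Y l s = q 1 := by ring
        rw [e1, e2]
        exact h1
      · linarith
      · linarith
  · let c : E3 := WithLp.toLp 2 ![offN N l s + 2 * k, ctr y Y l s, (s : ℝ) * wd N]
    let f : E3 ≃ᵢ E3 := IsometryEquiv.addRight c
    have hf : ∀ q : E3, f q = q + c := fun q => rfl
    have f0 : ∀ q : E3, f q 0 = q 0 + (offN N l s + 2 * k) := by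
      intro q
      rw [hf, PiLp.add_apply]
      simp [c]
    have f1 : ∀ q : E3, f q 1 = q 1 + ctr y Y l s := by
      intro q
      rw [hf, PiLp.add_apply]
      simp [c]
    have f2 : ∀ q : E3, f q 2 = q 2 + s * wd N := by
      intro q
      rw [hf, PiLp.add_apply]
      simp [c]
    refine ⟨f, ?_⟩
    ext p
    obtain ⟨q, rfl⟩ := f.surjective p
    rw [f.injective.mem_set_image]
    simp only [coinN, tr, ax, hl, if_false, Set.mem_ofPred_eq]
    rw [f0, f1, f2]
    constructor
    · rintro ⟨h1, h2, h3⟩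
      refine ⟨?_, ?_, ?_⟩
      · have e1 : q 0 + (offN N l s + 2 * k) - (offN N l s + 2 * k) = q 0 := by ring
        have e2 : q 1 + ctr y Y l s - ctr y Y l s = q 1 := by ring
        rw [e1, e2] at h1
        exact h1
      · linarith
      · linarith
    · rintro ⟨h1, h2, h3⟩
      refine ⟨?_, ?_, ?_⟩
      · have e1 : q 0 + (offN N l s + 2 * k) - (offN N l s + 2 * k) = q 0 := by ring
        have e2 : q 1 + ctr y Y l s - ctr y Y l s = q 1 := by ring
        rw [e1, e2]
        exact h1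
      · linarith
      · linarith

/-- a coordinate can be moved inside an open set -/
private theorem move_coord {S : Set E3} {p : E3} (hp : p ∈ interior S) (i : Fin 3) :
    ∃ e : ℝ, 0 < e ∧ p + EuclideanSpace.single i e ∈ S ∧ p + EuclideanSpace.single i (-e) ∈ S := by
  obtain ⟨ε, hε, hball⟩ := Metric.isOpen_iff.1 isOpen_interior p hp
  refine ⟨ε / 2, by positivity, ?_, ?_⟩
  · refine interior_subset (hball ?_)
    rw [Metric.mem_ball, dist_eq_norm, add_sub_cancel_left, EuclideanSpace.norm_single,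
      Real.norm_eq_abs, abs_of_pos (by positivity)]
    linarith
  · refine interior_subset (hball ?_)
    rw [Metric.mem_ball, dist_eq_norm, add_sub_cancel_left, EuclideanSpace.norm_single,
      Real.norm_eq_abs, abs_neg, abs_of_pos (by positivity)]
    linarith

theorem interior_coin_subset (N : ℕ) (h : ℝ) (y Y : ℤ → ℝ) (l s k : ℤ) :
    interior (coinN N h y Y l s k) ⊆ ocN N h y Y l s k := by
  intro p hp
  -- the axis
  have hax : (s : ℝ) * wd N < ax l p ∧ ax l p < s * wd N + h := by
    by_cases hl : l % 2 = 0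
    · obtain ⟨e, he, h1, h2⟩ := move_coord hp 0
      simp only [coinN, ax, hl, if_true, Set.mem_ofPred_eq, PiLp.add_apply,
        EuclideanSpace.single_apply] at h1 h2 ⊢
      constructor <;> linarith [h1.2.2, h2.2.1]
    · obtain ⟨e, he, h1, h2⟩ := move_coord hp 2
      simp only [coinN, ax, hl, if_false, if_true, Set.mem_ofPred_eq, PiLp.add_apply,
        EuclideanSpace.single_apply] at h1 h2 ⊢
      constructor <;> linarith [h1.2.2, h2.2.1]
  refine ⟨?_, hax.1, hax.2⟩
  obtain ⟨e, he, h1, h2⟩ := move_coord hp 1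
  have tr1 : ∀ t : ℝ, tr l (p + EuclideanSpace.single 1 t) = tr l p := by
    intro t
    unfold tr
    split_ifs <;> simp
  have p1 : ∀ t : ℝ, (p + EuclideanSpace.single 1 t : E3) 1 = p 1 + t := by
    intro t
    simp
  have h1' := h1.1
  have h2' := h2.1
  rw [tr1, p1] at h1' h2'
  rcases le_total 0 (p 1 - ctr y Y l s) with hv | hv
  · nlinarith
  · nlinarith

theorem oc_subset_coin (N : ℕ) (h : ℝ) (y Y : ℤ → ℝ) (l s k : ℤ) : ocN N h y Y l s k ⊆ coinN N h y Y l s k :=
  fun _ hp => ⟨hp.1.le, hp.2.1.le, hp.2.2.le⟩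

private theorem continuous_tr (l : ℤ) : Continuous (tr l) := by
  unfold tr
  split_ifs <;> fun_prop

private theorem continuous_ax (l : ℤ) : Continuous (ax l) := by
  unfold ax
  split_ifs <;> fun_prop

theorem isOpen_oc (N : ℕ) (h : ℝ) (y Y : ℤ → ℝ) (l s k : ℤ) : IsOpen (ocN N h y Y l s k) := by
  have h1 := continuous_tr l
  have h2 := continuous_ax l
  have h3 : Continuous (fun p : E3 =>
      (tr l p - (offN N l s + 2 * k)) ^ 2 + (p 1 - ctr y Y l s) ^ 2) := by fun_prop
  have o1 := isOpen_lt h3 (continuous_const (y := (1 : ℝ)))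
  have o2 := isOpen_lt (continuous_const (y := (s : ℝ) * wd N)) h2
  have o3 := isOpen_lt h2 (continuous_const (y := (s : ℝ) * wd N + h))
  exact o1.inter (o2.inter o3)

end Pool.Agent.Lib.MP_5bb92a_co.Ins
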