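import Mathlib
import Pool.Agent.Lib.MP_5bb92a_co.Ins.Heights
import Pool.Agent.Lib.MP_5bb92a_co.Ins.Disj
import Pool.Agent.Lib.MP_5bb92a_co.Ins.Iso
import Pool.Agent.Lib.MP_5bb92a_co.Ins.Vol
import Pool.Agent.Lib.MP_5bb92a_co.Ins.Dens

set_option autoImplicit false

open MeasureTheory Set Filter Topology

namespace Pool.Agent.Lib.MP_5bb92a_co.Ins

/-- the permutation of the coordinates for the family number `r` -/
def permN (r : Fin 4) : Equiv.Perm (Fin 3) := if r.val % 2 = 0 then 1 else Equiv.swap 0 2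

private theorem off_abs_le (N : ℕ) (l s : ℤ) : |offN N l s| ≤ 2 := by
  unfold offN ca cc
  split_ifs <;> rw [abs_le] <;> constructor <;> norm_num

private theorem perm_ax (r : Fin 4) (j : ℤ) (p : E3) :
    p (permN r 0) = ax (4 * j + r.val) p ∧ p (permN r 1) = p 1 ∧
      p (permN r 2) = tr (4 * j + r.val) p := by
  unfold permN ax tr
  fin_cases r
  · have h : (4 * j + ((0 : ℕ) : ℤ)) % 2 = 0 := by omega
    refine ⟨?_, ?_, ?_⟩
    · simp only [h, if_true]
      simp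
    · simp
    · simp only [h, if_true]
      simp
  · have h : (4 * j + ((1 : ℕ) : ℤ)) % 2 ≠ 0 := by omega
    have h1 : (Equiv.swap (0 : Fin 3) 2) 1 = 1 := by decide
    refine ⟨?_, ?_, ?_⟩
    · simp only [h, if_false]
      simp
    · simp [h1]
    · simp only [h, if_false]
      simp
  · have h : (4 * j + ((2 : ℕ) : ℤ)) % 2 = 0 := by omega
    refine ⟨?_, ?_, ?_⟩
    · simp only [h, if_true]
      simp
    · simp
    · simp only [h, if_true]
      simp
  · have h : (4 * j + ((3 : ℕ) : ℤ)) % 2 ≠ 0 := by omega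
    have h1 : (Equiv.swap (0 : Fin 3) 2) 1 = 1 := by decide
    refine ⟨?_, ?_, ?_⟩
    · simp only [h, if_false]
      simp
    · simp [h1]
    · simp only [h, if_false]
      simp

private theorem ctr_near {N : ℕ} (hN : 0 < N) {y Y : ℤ → ℝ} (hy : GoodYN N y)
    (hY : GoodZN N Y) (r : Fin 4) (i j : ℤ) :
    |ctr y Y (4 * j + r.val) i - 4 * rho * j| ≤ 9 := by
  have h1 := abs_le.1 (hy.abs_le hN i)
  have h2 := abs_le.1 (hY.abs_le hN i)
  have hr : r.val < 4 := r.isLt
  have hd : (4 * j + (r.val : ℤ)) / 4 = j := by omega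
  have hm : (4 * j + (r.val : ℤ)) % 4 = r.val := by omega
  unfold ctr
  rw [hd, hm]
  unfold rho
  rw [abs_le]
  split_ifs <;> constructor <;> linarith

private theorem near {N : ℕ} (hN : 0 < N) {h : ℝ} (h1 : h ≤ 1) {y Y : ℤ → ℝ}
    (hy : GoodYN N y) (hY : GoodZN N Y) (r : Fin 4) (i j k : ℤ) (p : E3)
    (hp : p ∈ ocN N h y Y (4 * j + r.val) i k) :
    |p (permN r 0) - wd N * i| ≤ 10 ∧ |p (permN r 1) - 4 * rho * j| ≤ 10 ∧
      |p (permN r 2) - 2 * k| ≤ 10 := by
  obtain ⟨e0, e1, e2⟩ := perm_ax r j p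
  rw [e0, e1, e2]
  obtain ⟨h1', h2, h3⟩ := hp
  have hc := abs_le.1 (ctr_near hN hy hY r i j)
  have ho := abs_le.1 (off_abs_le N (4 * j + r.val) i)
  have ha : |tr (4 * j + r.val) p - (offN N (4 * j + r.val) i + 2 * k)| ≤ 1 := by
    rw [← sq_le_one_iff_abs_le_one]
    nlinarith [sq_nonneg (p 1 - ctr y Y (4 * j + r.val) i)]
  have hb : |p 1 - ctr y Y (4 * j + r.val) i| ≤ 1 := by
    rw [← sq_le_one_iff_abs_le_one]
    nlinarith [sq_nonneg (tr (4 * j + r.val) p - (offN N (4 * j + r.val) i + 2 * k))]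
  have ha' := abs_le.1 ha
  have hb' := abs_le.1 hb
  refine ⟨?_, ?_, ?_⟩
  · rw [abs_le]
    constructor <;> linarith
  · rw [abs_le]
    constructor <;> linarith
  · rw [abs_le]
    constructor <;> linarith

/-- the lower density of the coins -/
theorem coins_lower {N : ℕ} (hN : 0 < N) {h : ℝ} (h0 : 0 < h) (h1 : h ≤ 1) (hw : h ≤ wd N)
    {y Y : ℤ → ℝ} (hy : GoodYN N y) (hY : GoodZN N Y) :
    ENNReal.ofReal (h * N * (Real.pi / (2 * rho))) ≤ Filter.liminf (fun R : ℝ =>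
      volume ((⋃ i : ℤ × ℤ × ℤ, coinN N h y Y i.1 i.2.1 i.2.2) ∩ Metric.ball (0 : E3) R) /
        volume (Metric.ball (0 : E3) R)) Filter.atTop := by
  have hw0 := wd_pos hN
  have hr0 : (0 : ℝ) < rho := by unfold rho; norm_num
  have key := density_liminf (N := 4) (a := wd N) (b := 4 * rho) (c := 2) (v := Real.pi * h)
    (C := 10) hw0 (by positivity) (by norm_num) (by positivity) (by norm_num) permN
    (fun r i j k => ocN N h y Y (4 * j + r.val) i k)
    (fun r i j k => (isOpen_oc N h y Y _ _ _).measurableSet)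
    (by
      intro r i j k r' i' j' k' hne
      apply oc_disjoint hN hw hy hY
      intro he
      apply hne
      simp only [Prod.mk.injEq] at he ⊢
      obtain ⟨h1, h2, h3⟩ := he
      have hr : r.val < 4 := r.isLt
      have hr' : r'.val < 4 := r'.isLt
      refine ⟨?_, h2, ?_, h3⟩
      · apply Fin.ext
        omega
      · omega)
    (fun r i j k => volume_oc N h y Y _ _ _)
    (fun r i j k p hp => near hN h1 hy hY r i j k p hp)
    (⋃ i : ℤ × ℤ × ℤ, coinN N h y Y i.1 i.2.1 i.2.2)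
    (by
      intro r i j k
      refine (oc_subset_coin N h y Y _ _ _).trans ?_
      intro p hp
      exact Set.mem_iUnion.2 ⟨(4 * j + (r.val : ℤ), i, k), hp⟩)
  have he : h * N * (Real.pi / (2 * rho)) =
      ((4 : ℕ) : ℝ) * (Real.pi * h) / (wd N * (4 * rho) * 2) := by
    have hNr : (0 : ℝ) < (N : ℝ) := by exact_mod_cast hN
    unfold wd
    field_simp
    norm_num
  rw [he]
  exact key

/-- the packing -/
theorem exists_packing (h : ℝ) (h0 : 0 < h) (h1 : h ≤ 1 / 10000) :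
    ∃ g : ℤ × ℤ × ℤ → (E3 ≃ᵢ E3),
      (∀ i j, i ≠ j → Disjoint
        (interior (g i '' {p : E3 | p 0 ^ 2 + p 1 ^ 2 ≤ 1 ∧ 0 ≤ p 2 ∧ p 2 ≤ h}))
        (interior (g j '' {p : E3 | p 0 ^ 2 + p 1 ^ 2 ≤ 1 ∧ 0 ≤ p 2 ∧ p 2 ≤ h}))) ∧
      ENNReal.ofReal ((1 - h) * (Real.pi / (2 * rho))) ≤ Filter.liminf (fun R : ℝ =>
        volume ((⋃ i, g i '' {p : E3 | p 0 ^ 2 + p 1 ^ 2 ≤ 1 ∧ 0 ≤ p 2 ∧ p 2 ≤ h}) ∩
          Metric.ball (0 : E3) R) / volume (Metric.ball (0 : E3) R)) Filter.atTop := by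
  set N : ℕ := ⌊1 / h⌋₊ with hNdef
  have hinv : (10000 : ℝ) ≤ 1 / h := by
    rw [le_div_iff₀ h0]; linarith
  have hN : 10000 ≤ N := Nat.le_floor (by exact_mod_cast hinv)
  have hN0 : 0 < N := by omega
  have hNr : (0 : ℝ) < (N : ℝ) := by exact_mod_cast hN0
  have hle : (N : ℝ) ≤ 1 / h := Nat.floor_le (by positivity)
  have hlt : 1 / h < (N : ℝ) + 1 := Nat.lt_floor_add_one _
  have hw : h ≤ wd N := by
    unfold wd
    rw [le_div_iff₀ hNr]
    rw [le_div_iff₀ h0] at hle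
    linarith
  have hhN : 1 - h ≤ h * N := by
    rw [div_lt_iff₀ h0] at hlt
    linarith
  obtain ⟨y, hy⟩ := exists_goodYN hN
  obtain ⟨Y, hY⟩ := exists_goodZN hN
  choose f hf using fun i : ℤ × ℤ × ℤ => coin_isometric N h y Y i.1 i.2.1 i.2.2
  refine ⟨f, ?_, ?_⟩
  · intro i j hij
    rw [← hf i, ← hf j]
    refine Set.disjoint_of_subset (interior_coin_subset N h y Y _ _ _)
      (interior_coin_subset N h y Y _ _ _) ?_
    exact oc_disjoint hN0 hw hy hY hij
  · simp only [← hf]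
    refine le_trans ?_ (coins_lower hN0 h0 (by linarith) hw hy hY)
    apply ENNReal.ofReal_le_ofReal
    have hr0 : (0 : ℝ) < rho := by unfold rho; norm_num
    have : 0 < Real.pi / (2 * rho) := by positivity
    exact mul_le_mul_of_nonneg_right hhN this.le

/-- the comparison with the conjectured value -/
theorem value_lt (h : ℝ) (h0 : 0 < h) (h1 : h ≤ 1 / 40000) :
    Real.pi / Real.sqrt 12 < (1 - h) * (Real.pi / (2 * rho)) := by
  have h3 : 0 < Real.sqrt 12 := Real.sqrt_pos.2 (by norm_num)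
  have hr : (2 : ℝ) * rho = 3464 / 1000 := by unfold rho; norm_num
  have h5 : (3464 / 1000 : ℝ) / (1 - h) < Real.sqrt 12 := by
    apply Real.lt_sqrt_of_sq_lt
    have h6 : (0 : ℝ) < 1 - h := by linarith
    have h7 : (3464 / 1000 : ℝ) / (1 - h) ≤ (3464 / 1000) / (39999 / 40000) := by
      apply div_le_div_of_nonneg_left (by norm_num) (by norm_num) (by linarith)
    have h8 : 0 ≤ (3464 / 1000 : ℝ) / (1 - h) := by positivity
    calc ((3464 / 1000 : ℝ) / (1 - h)) ^ 2 ≤ ((3464 / 1000) / (39999 / 40000)) ^ 2 :=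
          pow_le_pow_left₀ h8 h7 2
      _ < 12 := by norm_num
  rw [hr]
  have h6 : (0 : ℝ) < 1 - h := by linarith
  have e : (1 - h) * (Real.pi / (3464 / 1000)) = Real.pi / ((3464 / 1000 : ℝ) / (1 - h)) := by
    field_simp
  rw [e]
  exact div_lt_div_of_pos_left Real.pi_pos (by positivity) h5

end Pool.Agent.Lib.MP_5bb92a_co.Ins
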